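import Pool.Agent.W187.UR.BelC
import Pool.Agent.W187.UR.NF
import Pool.Agent.W187.S2.Stm

/-! Project CV (owner helper187): leading coefficients of L-functions at arbitrary real points (critical
values, Artin L-series at `0`). Statements of the parts. -/

set_option autoImplicit false

namespace Pool.Agent.W187.CV

open Complex MeasureTheory Filter Topology Set
open scoped ComplexConjugate
open Pool.Agent.W189.ML Pool.Agent.W187.UR Pool.Agent.W187.S2 NumberField IsDedekindDomain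

/-- factorization along the segment `[0, 2]`, complex coefficients -/
def S_FACX : Prop := ∀ Φ g : ℂ → ℂ,
  (∀ x ∈ Icc (0 : ℝ) 2, MeromorphicAt Φ (x : ℂ)) →
  (∀ w : ℂ, 1 < w.re → AnalyticAt ℂ g w) →
  (∀ w : ℂ, 1 < w.re → Φ w = exp (g w)) →
  ∀ m : ℤ, meromorphicOrderAt Φ 0 = m →
  ∃ (Z : Finset ℝ) (n : ℝ → ℤ) (Q : ℂ → ℂ), (∀ x ∈ Z, 0 < x ∧ x ≤ 1) ∧
    (∀ x ∈ Icc (0 : ℝ) 2, AnalyticAt ℂ Q (x : ℂ)) ∧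
    (∀ x ∈ Icc (0 : ℝ) 2, Q (x : ℂ) ≠ 0) ∧
    (∀ᶠ w in 𝓝 (2 : ℂ), exp (g w) = w ^ m * (∏ x ∈ Z, (w - (x : ℂ)) ^ (n x)) * Q w) ∧
    meromorphicTrailingCoeffAt Φ 0 = (∏ x ∈ Z, ((0 : ℂ) - (x : ℂ)) ^ (n x)) * Q 0

/-- roots of high order have their values in the slit plane -/
def S_ROOT : Prop := ∀ Q : ℂ → ℂ, (∀ x ∈ Icc (0 : ℝ) 2, AnalyticAt ℂ Q (x : ℂ)) →
  (∀ x ∈ Icc (0 : ℝ) 2, Q (x : ℂ) ≠ 0) →
  ∃ (N : ℕ) (R : ℂ → ℂ), 0 < N ∧ (∀ x ∈ Icc (0 : ℝ) 2, AnalyticAt ℂ R (x : ℂ)) ∧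
    (∀ x ∈ Icc (0 : ℝ) 2, R (x : ℂ) ∈ slitPlane) ∧
    ∀ x ∈ Icc (0 : ℝ) 2, ∀ᶠ w in 𝓝 (x : ℂ), R w ^ N = Q w

/-- the logarithm below the segment, complex coefficients -/
def S_BELX : Prop := ∀ Φ g : ℂ → ℂ,
  (∀ x ∈ Icc (0 : ℝ) 2, MeromorphicAt Φ (x : ℂ)) →
  (∀ w : ℂ, 1 < w.re → AnalyticAt ℂ g w) →
  (∀ w : ℂ, 1 < w.re → Φ w = exp (g w)) →
  ∀ m : ℤ, meromorphicOrderAt Φ 0 = m →
  ∃ (η B : ℝ) (L : ℂ → ℂ) (r₀ : ℂ), Bel m r₀ η B L ∧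
    (∀ w : ℂ, w.re = 2 → -η ≤ w.im → w.im < 0 → g w = L w) ∧
    exp r₀ = meromorphicTrailingCoeffAt Φ 0

/-- reflection at the real axis -/
def S_CONJ : Prop := ∀ (Φ : ℂ → ℂ) (x : ℝ), MeromorphicAt Φ (x : ℂ) →
  MeromorphicAt (fun w => conj (Φ (conj w))) (x : ℂ) ∧
  meromorphicOrderAt (fun w => conj (Φ (conj w))) (x : ℂ) = meromorphicOrderAt Φ (x : ℂ)

/-- absolute convergence of the rotated means -/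
def S_ABS : Prop := ∀ {ι : Type} (lam : ι → ℝ) (b : ι → ℂ) (σ : ℝ), (∀ i, 0 ≤ lam i) →
  (Summable fun i => ‖b i‖ * Real.exp (-(σ * lam i))) → ∀ γ T : ℝ, 0 < T →
  Summable fun i => ‖b i * kk γ (lam i / T)‖

/-- the law at the point `0`, abscissa `1` -/
def S_LAWX : Prop := ∀ {ι : Type} [Countable ι] (lam : ι → ℝ) (b : ι → ℂ), (∀ i, 0 ≤ lam i) →
  (∀ σ : ℝ, 1 < σ → Summable fun i => ‖b i‖ * Real.exp (-(σ * lam i))) →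
  ∀ F : ℂ → ℂ, (∀ x ∈ Icc (0 : ℝ) 2, MeromorphicAt F (x : ℂ)) →
  (∀ w : ℂ, 1 < w.re → F w = exp (∑' i, b i * exp (-(w * lam i)))) →
  ∀ m : ℤ, meromorphicOrderAt F 0 = m →
  ∃ r₀ : ℂ, exp r₀ = meromorphicTrailingCoeffAt F 0 ∧ ∀ γ : ℝ, Real.pi / 2 < γ →
    ∃ C T₀ : ℝ, 0 ≤ C ∧ 1 ≤ T₀ ∧ ∀ T ≥ T₀,
      ‖(∑' i, b i * kk γ (lam i / T)) - (-(m * Real.log T) + m * Lam γ + r₀)‖ ≤ C / T

/-- the law at an arbitrary real point `s₀`, arbitrary abscissa `A` -/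
def S_POINT : Prop := ∀ {ι : Type} [Countable ι] (lam : ι → ℝ) (b : ι → ℂ) (A s₀ : ℝ), (∀ i, 0 ≤ lam i) →
  (∀ σ : ℝ, A < σ → Summable fun i => ‖b i‖ * Real.exp (-(σ * lam i))) →
  ∀ F : ℂ → ℂ, (∀ x : ℝ, s₀ ≤ x → MeromorphicAt F (x : ℂ)) →
  (∀ s : ℂ, A < s.re → F s = exp (∑' i, b i * exp (-(s * lam i)))) →
  ∃ m : ℤ, meromorphicOrderAt F s₀ = m ∧ meromorphicTrailingCoeffAt F s₀ ≠ 0 ∧
  ∃ r₀ : ℂ, exp r₀ = meromorphicTrailingCoeffAt F s₀ ∧ ∀ γ : ℝ, Real.pi / 2 < γ →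
    ∃ C T₀ : ℝ, 0 ≤ C ∧ 1 ≤ T₀ ∧ ∀ T ≥ T₀,
      ‖(∑' i, b i * exp (-(s₀ * lam i)) * kk γ (lam i / T)) -
        (-(m * Real.log T) + m * Lam γ + r₀)‖ ≤ C / T

/-- prime powers -/
def S_PRIMES : Prop := ∀ θ : ℝ, 1 < θ →
  Summable fun x : ℕ × ℕ => if x.1.Prime then Real.exp (-(θ * ((x.2 + 1) * Real.log x.1))) else 0

/-- powers of prime ideals -/
def S_NF : Prop := ∀ (K : Type) [Field K] [NumberField K] (θ : ℝ), 1 < θ →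
  Summable fun x : HeightOneSpectrum (𝓞 K) × ℕ =>
    Real.exp (-(θ * ((x.2 + 1) * Real.log (Ideal.absNorm x.1.asIdeal))))

end Pool.Agent.W187.CV
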