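import Pool.Agent.W187.CV.LawX
import Pool.Agent.W377.CV.BelX
import Pool.Agent.W623.CV.FacX
import Pool.Agent.W832.CV.Root
import Pool.Agent.W966.CV.Conj
import Pool.Agent.W125.CV.Abs
import Pool.Agent.W83.CV.Primes
import Pool.Agent.W684.CV.NF
import Pool.Agent.W308.CV.Point

/-! Project CV: all the parts. -/

set_option autoImplicit false

namespace Pool.Agent.W187.CV

theorem point_all : S_POINT :=
  Pool.Agent.W308.CV.point (lawx (Pool.Agent.W377.CV.belx Pool.Agent.W623.CV.facx
    Pool.Agent.W832.CV.root) Pool.Agent.W966.CV.conjm Pool.Agent.W125.CV.absc)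

end Pool.Agent.W187.CV
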