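import Pool.Agent.W187.CV.Value

/-! Project CV: Artin L-series and the rotated sums over the powers of prime ideals. -/

set_option autoImplicit false

namespace Pool.Agent.W187.CV

open Complex MeasureTheory Filter Topology Set Asymptotics
open scoped Classical NumberField
open Pool.Agent.W189.ML Pool.Agent.W187.UR Pool.Agent.W187.S2 NumberField IsDedekindDomain

variable {K L : Type} [Field K] [NumberField K] [Field L] [NumberField L] [Algebra K L]

/-- `Q` is a prime ideal of `𝓞 L` above `v` and `σ` is an (arithmetic) Frobenius element at `Q` -/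
def IsFrob (v : HeightOneSpectrum (𝓞 K)) (Q : Ideal (𝓞 L)) (σ : Gal(L/K)) : Prop :=
  Q.IsPrime ∧ Q.under (𝓞 K) = v.asIdeal ∧
    ∀ x : 𝓞 L, σ • x - x ^ Ideal.absNorm v.asIdeal ∈ Q

/-- `i` lies in the inertia group of `Q` -/
def InInertia (Q : Ideal (𝓞 L)) (i : Gal(L/K)) : Prop := ∀ x : 𝓞 L, i • x - x ∈ Q

/-- the mean of `χ` over the coset `σ^j I_Q`: for the character `χ` of `V` this is the trace of `σ^j` on the
invariants of the inertia group in `V` -/
noncomputable def artinTrace (χ : Gal(L/K) → ℂ) (Q : Ideal (𝓞 L)) (σ : Gal(L/K)) (j : ℕ) : ℂ :=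
  (∑ i : Gal(L/K), if InInertia Q i then χ (σ ^ j * i) else 0) /
    (Nat.card {i : Gal(L/K) // InInertia Q i} : ℂ)

/-- the logarithm of the Artin L-series with the factors in `S` removed: the sum over the finite places
`v ∉ S` and the `j ≥ 1` of `t_v(j) / (j Nv^{js})`; the index is `(v, j - 1)` -/
noncomputable def logLK (S : Set (HeightOneSpectrum (𝓞 K))) (t : HeightOneSpectrum (𝓞 K) → ℕ → ℂ)
    (s : ℂ) : ℂ :=
  ∑' x : HeightOneSpectrum (𝓞 K) × ℕ, if x.1 ∈ S then 0 else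
    t x.1 (x.2 + 1) / (x.2 + 1) *
      exp (-(s * ((x.2 + 1) * Real.log (Ideal.absNorm x.1.asIdeal) : ℝ)))

/-- the term `t_v(j) / j · K(j log Nv / log X)` with `K(u) = e^{icu} / Γ(1 + u)`; the index is `(v, j - 1)` -/
noncomputable def rtermK (S : Set (HeightOneSpectrum (𝓞 K))) (t : HeightOneSpectrum (𝓞 K) → ℕ → ℂ)
    (c X : ℝ) (x : HeightOneSpectrum (𝓞 K) × ℕ) : ℂ :=
  if x.1 ∈ S then 0 else
    t x.1 (x.2 + 1) / (x.2 + 1) *
      kk c ((x.2 + 1) * Real.log (Ideal.absNorm x.1.asIdeal) / Real.log X)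

/-- the rotated sum -/
noncomputable def rsumK (S : Set (HeightOneSpectrum (𝓞 K))) (t : HeightOneSpectrum (𝓞 K) → ℕ → ℂ)
    (c X : ℝ) : ℂ := ∑' x : HeightOneSpectrum (𝓞 K) × ℕ, rtermK S t c X x

theorem norm_artinTrace_le (χ : Gal(L/K) → ℂ) (Q : Ideal (𝓞 L)) (σ : Gal(L/K)) (j : ℕ) :
    ‖artinTrace χ Q σ j‖ ≤ ∑ g : Gal(L/K), ‖χ g‖ := by
  unfold artinTrace
  have hone : InInertia Q (1 : Gal(L/K)) := fun x => by simp
  have : Nonempty {i : Gal(L/K) // InInertia Q i} := ⟨⟨1, hone⟩⟩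
  have hcard : (1 : ℝ) ≤ (Nat.card {i : Gal(L/K) // InInertia Q i} : ℝ) := by
    exact_mod_cast Nat.one_le_iff_ne_zero.2 Nat.card_pos.ne'
  rw [norm_div, Complex.norm_natCast]
  refine (div_le_self (norm_nonneg _) hcard).trans ?_
  refine (norm_sum_le _ _).trans ?_
  calc ∑ i : Gal(L/K), ‖if InInertia Q i then χ (σ ^ j * i) else 0‖
      ≤ ∑ i : Gal(L/K), ‖χ (σ ^ j * i)‖ := by
        refine Finset.sum_le_sum fun i _ => ?_
        split_ifs
        · exact le_rfl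
        · rw [norm_zero]; exact norm_nonneg _
    _ = ∑ g : Gal(L/K), ‖χ g‖ := Equiv.sum_comp (Equiv.mulLeft (σ ^ j)) (fun g => ‖χ g‖)

/-- coefficients and frequencies -/
noncomputable def bk (S : Set (HeightOneSpectrum (𝓞 K))) (t : HeightOneSpectrum (𝓞 K) → ℕ → ℂ)
    (x : HeightOneSpectrum (𝓞 K) × ℕ) : ℂ := if x.1 ∈ S then 0 else t x.1 (x.2 + 1) / (x.2 + 1)

noncomputable def lk (x : HeightOneSpectrum (𝓞 K) × ℕ) : ℝ :=
  (x.2 + 1) * Real.log (Ideal.absNorm x.1.asIdeal)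

theorem lk_nonneg (x : HeightOneSpectrum (𝓞 K) × ℕ) : 0 ≤ lk x := by
  unfold lk
  exact mul_nonneg (by positivity) (Real.log_natCast_nonneg _)

theorem logLK_eq (S : Set (HeightOneSpectrum (𝓞 K))) (t : HeightOneSpectrum (𝓞 K) → ℕ → ℂ) (s : ℂ) :
    logLK S t s = ∑' x, bk S t x * exp (-(s * lk x)) := by
  unfold logLK bk lk
  refine tsum_congr fun x => ?_
  split_ifs with h
  · simp
  · rfl

theorem rtermK_eq (S : Set (HeightOneSpectrum (𝓞 K))) (t : HeightOneSpectrum (𝓞 K) → ℕ → ℂ)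
    (c X : ℝ) (x : HeightOneSpectrum (𝓞 K) × ℕ) :
    rtermK S t c X x = bk S t x * kk c (lk x / Real.log X) := by
  unfold rtermK bk lk
  split_ifs with h
  · simp
  · rfl

theorem bk_sum (hN : S_NF) {S : Set (HeightOneSpectrum (𝓞 K))} {t : HeightOneSpectrum (𝓞 K) → ℕ → ℂ}
    {D : ℝ} (ht : ∀ v ∉ S, ∀ j : ℕ, ‖t v j‖ ≤ D) {σ : ℝ} (hσ : 1 < σ) :
    Summable fun x => ‖bk S t x‖ * Real.exp (-(σ * lk x)) := by
  refine ((hN K σ hσ).mul_left |D|).of_nonneg_of_le (fun x => by positivity) fun x => ?_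
  unfold bk lk
  split_ifs with h
  · rw [norm_zero, zero_mul]; positivity
  · have h3 : (1 : ℝ) ≤ ‖((x.2 : ℂ) + 1)‖ := by
      have : ((x.2 : ℂ) + 1) = ((x.2 + 1 : ℕ) : ℂ) := by push_cast; rfl
      rw [this, Complex.norm_natCast]
      exact_mod_cast Nat.succ_le_succ (Nat.zero_le _)
    refine mul_le_mul_of_nonneg_right ?_ (Real.exp_pos _).le
    rw [norm_div]
    exact (div_le_self (norm_nonneg _) h3).trans ((ht x.1 h _).trans (le_abs_self D))

/-- absolute convergence -/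
theorem rtermK_summable (hN : S_NF) (hA : S_ABS) {S : Set (HeightOneSpectrum (𝓞 K))}
    {t : HeightOneSpectrum (𝓞 K) → ℕ → ℂ} {D : ℝ} (ht : ∀ v ∉ S, ∀ j : ℕ, ‖t v j‖ ≤ D) (c : ℝ) {X : ℝ}
    (hX : 1 < X) : Summable fun x => ‖rtermK S t c X x‖ := by
  have h1 := hA lk (bk S t) 2 lk_nonneg (bk_sum hN ht (by norm_num)) c (Real.log X)
    (Real.log_pos hX)
  refine h1.congr fun x => ?_
  rw [rtermK_eq]

/-- the law at `0` for Artin L-series -/
theorem law_k (hPT : S_POINT) (hN : S_NF) {S : Set (HeightOneSpectrum (𝓞 K))}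
    {t : HeightOneSpectrum (𝓞 K) → ℕ → ℂ} {D : ℝ} (ht : ∀ v ∉ S, ∀ j : ℕ, ‖t v j‖ ≤ D) {F : ℂ → ℂ}
    (hF : ∀ s : ℂ, 1 < s.re → F s = exp (logLK S t s))
    (hm : ∀ x : ℝ, 0 ≤ x → MeromorphicAt F x) :
    ∃ r : ℤ, meromorphicOrderAt F 0 = r ∧ meromorphicTrailingCoeffAt F 0 ≠ 0 ∧
      ∀ c : ℝ, Real.pi / 2 < c →
        (fun X : ℝ => exp (rsumK S t c X) * (exp (-Lam c) * Real.log X) ^ r -
          meromorphicTrailingCoeffAt F 0) =O[atTop] (fun X : ℝ => 1 / Real.log X) := by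
  have hcount : Countable (HeightOneSpectrum (𝓞 K) × ℕ) := by
    have h1 := hN K 2 (by norm_num)
    have h2 := h1.countable_support
    have h3 : Function.support (fun x : HeightOneSpectrum (𝓞 K) × ℕ =>
        Real.exp (-(2 * ((x.2 + 1) * Real.log (Ideal.absNorm x.1.asIdeal))))) = Set.univ := by
      ext x
      simp [Real.exp_ne_zero]
    rw [h3] at h2
    exact Set.countable_univ_iff.1 h2
  obtain ⟨m, h1, h2, r₀, h3, h4⟩ := hPT lk (bk S t) 1 0 lk_nonneg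
    (fun σ hσ => bk_sum hN ht hσ) F hm (fun s hs => by rw [hF s hs, logLK_eq])
  rw [Complex.ofReal_zero] at h1 h2 h3
  refine ⟨m, h1, h2, fun c hc => ?_⟩
  obtain ⟨C, T₀, hC, hT₀, h5⟩ := h4 c hc
  rw [← h3]
  have h7 := exp_form (S := fun T : ℝ => rsumK S t c (Real.exp T)) (C := C) (m := m) (Λ := Lam c)
    (r₀ := r₀) hT₀ fun T hT => by
      have h6 : rsumK S t c (Real.exp T) =
          ∑' i, bk S t i * exp (-(((0 : ℝ) : ℂ) * lk i)) * kk c (lk i / T) := by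
        unfold rsumK
        refine tsum_congr fun x => ?_
        rw [rtermK_eq, Real.log_exp]
        simp
      rw [h6]
      exact h5 T hT
  refine (to_log h7).congr' ?_ EventuallyEq.rfl
  filter_upwards [eventually_gt_atTop 0] with X hX
  simp only [Real.exp_log hX]

end Pool.Agent.W187.CV
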