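import Pool.Agent.W187.CV.Stm
import Pool.Agent.W187.UR.Np

/-! Project CV: the law with complex coefficients. -/

set_option autoImplicit false

namespace Pool.Agent.W187.CV

open Complex MeasureTheory Filter Topology Set
open scoped ComplexConjugate
open Pool.Agent.W189.ML Pool.Agent.W187.UR Pool.Agent.W187.S2

theorem bel_add {m : ℤ} {r₁ r₂ : ℂ} {η₁ η₂ B₁ B₂ : ℝ} {L₁ L₂ : ℂ → ℂ} (h₁ : Bel m r₁ η₁ B₁ L₁)
    (h₂ : Bel m r₂ η₂ B₂ L₂) :
    Bel m ((r₁ + r₂) / 2) (min η₁ η₂) (B₁ + B₂) (fun w => (L₁ w + L₂ w) / 2) := by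
  refine ⟨lt_min h₁.hη h₂.hη, add_nonneg h₁.hB h₂.hB, fun w a1 a2 a3 a4 => ?_,
    fun w a1 a2 a3 a4 => ?_⟩
  · have b1 := h₁.diff w a1 a2 (by have := min_le_left η₁ η₂; linarith) a4
    have b2 := h₂.diff w a1 a2 (by have := min_le_right η₁ η₂; linarith) a4
    exact (b1.add b2).div_const _
  · have b1 := h₁.bound w a1 a2 (by have := min_le_left η₁ η₂; linarith) a4
    have b2 := h₂.bound w a1 a2 (by have := min_le_right η₁ η₂; linarith) a4
    have e : (L₁ w + L₂ w) / 2 - m * log w - (r₁ + r₂) / 2 =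
        ((L₁ w - m * log w - r₁) + (L₂ w - m * log w - r₂)) / 2 := by ring
    rw [e, norm_div, Complex.norm_ofNat]
    have b3 := norm_add_le (L₁ w - m * log w - r₁) (L₂ w - m * log w - r₂)
    have b4 : 0 ≤ ‖(L₁ w - m * log w - r₁) + (L₂ w - m * log w - r₂)‖ := norm_nonneg _
    rw [add_mul, add_mul]
    linarith

theorem bel_sub {m : ℤ} {r₁ r₂ : ℂ} {η₁ η₂ B₁ B₂ : ℝ} {L₁ L₂ : ℂ → ℂ} (h₁ : Bel m r₁ η₁ B₁ L₁)
    (h₂ : Bel m r₂ η₂ B₂ L₂) :
    Bel 0 ((r₁ - r₂) / (2 * I)) (min η₁ η₂) (B₁ + B₂) (fun w => (L₁ w - L₂ w) / (2 * I)) := by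
  refine ⟨lt_min h₁.hη h₂.hη, add_nonneg h₁.hB h₂.hB, fun w a1 a2 a3 a4 => ?_,
    fun w a1 a2 a3 a4 => ?_⟩
  · have b1 := h₁.diff w a1 a2 (by have := min_le_left η₁ η₂; linarith) a4
    have b2 := h₂.diff w a1 a2 (by have := min_le_right η₁ η₂; linarith) a4
    exact (b1.sub b2).div_const _
  · have b1 := h₁.bound w a1 a2 (by have := min_le_left η₁ η₂; linarith) a4
    have b2 := h₂.bound w a1 a2 (by have := min_le_right η₁ η₂; linarith) a4
    have e : (L₁ w - L₂ w) / (2 * I) - ((0 : ℤ) : ℂ) * log w - (r₁ - r₂) / (2 * I) =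
        ((L₁ w - m * log w - r₁) - (L₂ w - m * log w - r₂)) / (2 * I) := by
      push_cast
      ring
    rw [e, norm_div, norm_mul, Complex.norm_ofNat, Complex.norm_I, mul_one]
    have b3 := norm_sub_le (L₁ w - m * log w - r₁) (L₂ w - m * log w - r₂)
    have b4 : 0 ≤ ‖(L₁ w - m * log w - r₁) - (L₂ w - m * log w - r₂)‖ := norm_nonneg _
    rw [add_mul, add_mul]
    linarith

theorem ser_conj {ι : Type} (lam c : ι → ℝ) (w : ℂ) : conj (ser lam c (conj w)) = ser lam c w := by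
  unfold ser
  rw [Complex.conj_tsum]
  refine tsum_congr fun i => ?_
  rw [map_mul, Complex.conj_ofReal, ← Complex.exp_conj, map_neg, map_mul, Complex.conj_conj,
    Complex.conj_ofReal]

theorem sdata0 {ι : Type} {lam c : ι → ℝ} (h0 : ∀ i, 0 ≤ lam i)
    (hs : Summable fun i => |c i| * Real.exp (-(2 * lam i))) : SData lam c (fun _ => 0) :=
  ⟨h0, hs, fun w _ => by fun_prop, ⟨0, fun w _ _ => by simp⟩, by simp⟩

theorem lawx (hB : S_BELX) (hC : S_CONJ) (hA : S_ABS) : S_LAWX := by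
  intro ι _ lam b h0 hsum F hFm hFe m hm
  have habs : ∀ (c : ι → ℝ), (∀ i, |c i| ≤ ‖b i‖) → ∀ σ : ℝ, 1 < σ →
      Summable fun i => |c i| * Real.exp (-(σ * lam i)) := by
    intro c hc σ hσ
    refine (hsum σ hσ).of_nonneg_of_le (fun i => by positivity) fun i => ?_
    exact mul_le_mul_of_nonneg_right (hc i) (Real.exp_pos _).le
  set cr : ι → ℝ := fun i => (b i).re with hcr
  set ci : ι → ℝ := fun i => (b i).im with hci
  have hcr1 : ∀ i, |cr i| ≤ ‖b i‖ := fun i => Complex.abs_re_le_norm _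
  have hci1 : ∀ i, |ci i| ≤ ‖b i‖ := fun i => Complex.abs_im_le_norm _
  have hterm : ∀ (c : ι → ℝ), (∀ i, |c i| ≤ ‖b i‖) → ∀ w : ℂ, 1 < w.re →
      Summable fun i => (c i : ℂ) * exp (-(w * lam i)) := by
    intro c hc w hw
    refine Summable.of_norm ((habs c hc w.re hw).congr fun i => ?_)
    rw [norm_mul, Complex.norm_real, Real.norm_eq_abs, Complex.norm_exp]
    simp
  have hg1 : ∀ w : ℂ, 1 < w.re → (∑' i, b i * exp (-(w * lam i))) =
      ser lam cr w + I * ser lam ci w := by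
    intro w hw
    unfold ser
    rw [← tsum_mul_left, ← (hterm cr hcr1 w hw).tsum_add ((hterm ci hci1 w hw).mul_left I)]
    refine tsum_congr fun i => ?_
    conv_lhs => rw [← Complex.re_add_im (b i)]
    simp only [hcr, hci]
    ring
  have hanr : ∀ w : ℂ, 1 < w.re → AnalyticAt ℂ (ser lam cr) w := fun w hw =>
    ser_analytic h0 (habs cr hcr1) hw
  have hani : ∀ w : ℂ, 1 < w.re → AnalyticAt ℂ (ser lam ci) w := fun w hw =>
    ser_analytic h0 (habs ci hci1) hw
  obtain ⟨η₁, B₁, L₁, r₁, hL₁, hl₁, hr₁⟩ := hB F (fun w => ser lam cr w + I * ser lam ci w) hFm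
    (fun w hw => (hanr w hw).add (analyticAt_const.mul (hani w hw)))
    (fun w hw => by rw [hFe w hw, hg1 w hw]) m hm
  have hm2 : meromorphicOrderAt (fun w => conj (F (conj w))) 0 = m := by
    have h1 := (hC F 0 (hFm 0 ⟨le_rfl, by norm_num⟩)).2
    rw [Complex.ofReal_zero] at h1
    rw [h1, hm]
  obtain ⟨η₂, B₂, L₂, r₂, hL₂, hl₂, -⟩ := hB (fun w => conj (F (conj w)))
    (fun w => ser lam cr w - I * ser lam ci w) (fun x hx => (hC F x (hFm x hx)).1)
    (fun w hw => (hanr w hw).sub (analyticAt_const.mul (hani w hw)))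
    (fun w hw => by
      have hw' : 1 < (conj w).re := by simpa using hw
      rw [hFe _ hw', hg1 _ hw', ← Complex.exp_conj, map_add, map_mul, ser_conj, ser_conj,
        Complex.conj_I]
      congr 1
      ring) m hm2
  refine ⟨r₁, hr₁, fun γ hγ => ?_⟩
  have hn : ∀ (c : ι → ℝ), (∀ i, |c i| ≤ ‖b i‖) →
      SData lam (fun i => -c i) (fun _ => 0) := by
    intro c hc
    refine sdata0 h0 ?_
    have := habs c hc 2 (by norm_num)
    simpa using this
  have hneg : ∀ (c : ι → ℝ) (w : ℂ), -ser lam (fun i => -c i) w = ser lam c w := by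
    intro c w
    unfold ser
    rw [← tsum_neg]
    refine tsum_congr fun i => ?_
    push_cast
    ring
  obtain ⟨C₁, T₁, hC₁, hT₁, H₁⟩ := refc lam (fun i => -cr i) (hn cr hcr1) γ hγ m _ _ _ _
    (bel_add hL₁ hL₂) (fun w a1 a2 a3 => by
      have b1 := hl₁ w a1 (by have := min_le_left η₁ η₂; linarith) a3
      have b2 := hl₂ w a1 (by have := min_le_right η₁ η₂; linarith) a3
      rw [hneg]
      linear_combination (b1 + b2) / 2)
  obtain ⟨C₂, T₂, hC₂, hT₂, H₂⟩ := refc lam (fun i => -ci i) (hn ci hci1) γ hγ 0 _ _ _ _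
    (bel_sub hL₁ hL₂) (fun w a1 a2 a3 => by
      have b1 := hl₁ w a1 (by have := min_le_left η₁ η₂; linarith) a3
      have b2 := hl₂ w a1 (by have := min_le_right η₁ η₂; linarith) a3
      rw [hneg, eq_div_iff (by simp)]
      linear_combination (b1 - b2))
  rw [Lam_eq] at H₁ H₂
  refine ⟨C₁ + C₂, max T₁ T₂, add_nonneg hC₁ hC₂, hT₁.trans (le_max_left _ _), fun T hT => ?_⟩
  have hT' : 0 < T := by have := (le_max_left T₁ T₂).trans hT; linarith
  have K₁ := H₁ T ((le_max_left _ _).trans hT)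
  have K₂ := H₂ T ((le_max_right _ _).trans hT)
  have hk : ∀ (c : ι → ℝ), (∀ i, |c i| ≤ ‖b i‖) → Summable fun i => (c i : ℂ) * kk γ (lam i / T) := by
    intro c hc
    refine Summable.of_norm (hA lam (fun i => (c i : ℂ)) 2 h0 ?_ γ T hT')
    refine (habs c hc 2 (by norm_num)).congr fun i => ?_
    rw [Complex.norm_real, Real.norm_eq_abs]
  have hcm : ∀ (c : ι → ℝ), cmean lam (fun i => -c i) γ T = -∑' i, (c i : ℂ) * kk γ (lam i / T) := by
    intro c
    unfold cmean kk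
    rw [← tsum_neg]
    refine tsum_congr fun i => ?_
    push_cast
    ring
  have hsplit : (∑' i, b i * kk γ (lam i / T)) = (∑' i, (cr i : ℂ) * kk γ (lam i / T)) +
      I * ∑' i, (ci i : ℂ) * kk γ (lam i / T) := by
    rw [← tsum_mul_left, ← (hk cr hcr1).tsum_add ((hk ci hci1).mul_left I)]
    refine tsum_congr fun i => ?_
    conv_lhs => rw [← Complex.re_add_im (b i)]
    simp only [hcr, hci]
    ring
  rw [hcm] at K₁ K₂
  rw [hsplit]
  have hI : I * ((r₁ - r₂) / (2 * I)) = (r₁ - r₂) / 2 := by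
    field_simp
  have e : (∑' i, (cr i : ℂ) * kk γ (lam i / T)) + I * (∑' i, (ci i : ℂ) * kk γ (lam i / T)) -
      (-(m * Real.log T) + m * Lam γ + r₁) =
      -((-∑' i, (cr i : ℂ) * kk γ (lam i / T)) - (m * Real.log T - m * Lam γ - (r₁ + r₂) / 2)) +
      (-I) * ((-∑' i, (ci i : ℂ) * kk γ (lam i / T)) -
        (((0 : ℤ) : ℂ) * Real.log T - ((0 : ℤ) : ℂ) * Lam γ - (r₁ - r₂) / (2 * I))) := by
    push_cast
    linear_combination hI
  rw [e, add_div C₁ C₂ T]
  refine (norm_add_le _ _).trans (add_le_add ?_ ?_)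
  · rw [norm_neg]; exact K₁
  · rw [norm_mul, norm_neg, Complex.norm_I, one_mul]; exact K₂

end Pool.Agent.W187.CV
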