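import Pool.Agent.W187.CV.LawX
import Pool.Agent.W187.S2.Law2

/-! Project CV: L-functions over `ℚ` from the traces of Frobenius, and the rotated sums. -/

set_option autoImplicit false

namespace Pool.Agent.W187.CV

open Complex MeasureTheory Filter Topology Set Asymptotics
open Pool.Agent.W189.ML Pool.Agent.W187.UR Pool.Agent.W187.S2

/-- the logarithm of the Euler product: the sum over the primes `p` and the `j ≥ 1` of
`t_p(j) / (j p^{js})`, where `t_p(j)` is the trace of the `j`-th power of Frobenius; the index is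
`(p, j - 1)` -/
noncomputable def logL (t : ℕ → ℕ → ℂ) (s : ℂ) : ℂ :=
  ∑' x : ℕ × ℕ, if x.1.Prime then
    t x.1 (x.2 + 1) / (x.2 + 1) * exp (-(s * ((x.2 + 1) * Real.log x.1 : ℝ))) else 0

/-- the term `t_p(j) / (j p^{js}) K(j log p / log X)` of `p`, `j`, with `K(u) = e^{icu} / Γ(1 + u)`; the
index is `(p, j - 1)` -/
noncomputable def rterm (t : ℕ → ℕ → ℂ) (s c X : ℝ) (x : ℕ × ℕ) : ℂ :=
  if x.1.Prime then
    t x.1 (x.2 + 1) / (x.2 + 1) * exp (-(s * ((x.2 + 1) * Real.log x.1) : ℝ)) *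
      kk c ((x.2 + 1) * Real.log x.1 / Real.log X) else 0

/-- the rotated sum over the prime powers -/
noncomputable def rsum (t : ℕ → ℕ → ℂ) (s c X : ℝ) : ℂ := ∑' x : ℕ × ℕ, rterm t s c X x

/-- coefficients and frequencies -/
noncomputable def bq (t : ℕ → ℕ → ℂ) (x : ℕ × ℕ) : ℂ :=
  if x.1.Prime then t x.1 (x.2 + 1) / (x.2 + 1) else 0

noncomputable def lq (x : ℕ × ℕ) : ℝ := if x.1.Prime then (x.2 + 1) * Real.log x.1 else 0

theorem lq_nonneg (x : ℕ × ℕ) : 0 ≤ lq x := by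
  unfold lq
  split_ifs with h
  · have := Real.log_nonneg (by exact_mod_cast h.one_le : (1 : ℝ) ≤ x.1)
    positivity
  · exact le_rfl

theorem logL_eq (t : ℕ → ℕ → ℂ) (s : ℂ) :
    logL t s = ∑' x, bq t x * exp (-(s * lq x)) := by
  unfold logL bq lq
  refine tsum_congr fun x => ?_
  split_ifs with h
  · rfl
  · simp

theorem rterm_eq (t : ℕ → ℕ → ℂ) (s c X : ℝ) (x : ℕ × ℕ) :
    rterm t s c X x = bq t x * exp (-(s * lq x)) * kk c (lq x / Real.log X) := by
  unfold rterm bq lq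
  split_ifs with h
  · push_cast
    ring_nf
  · simp

theorem bq_sum (hP : S_PRIMES) {t : ℕ → ℕ → ℂ} {A D : ℝ}
    (ht : ∀ p j : ℕ, p.Prime → 1 ≤ j → ‖t p j‖ ≤ D * (p : ℝ) ^ (A * j)) {σ : ℝ} (hσ : A + 1 < σ) :
    Summable fun x => ‖bq t x‖ * Real.exp (-(σ * lq x)) := by
  have h1 := (hP (σ - A) (by linarith)).mul_left |D|
  refine h1.of_nonneg_of_le (fun x => by positivity) fun x => ?_
  unfold bq lq
  split_ifs with h
  · have hp : (0 : ℝ) < x.1 := by exact_mod_cast h.pos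
    have h2 := ht x.1 (x.2 + 1) h (by omega)
    have h3 : (1 : ℝ) ≤ ‖((x.2 : ℂ) + 1)‖ := by
      have : ((x.2 : ℂ) + 1) = ((x.2 + 1 : ℕ) : ℂ) := by push_cast; rfl
      rw [this, Complex.norm_natCast]
      exact_mod_cast Nat.succ_le_succ (Nat.zero_le _)
    have h4 : (x.1 : ℝ) ^ (A * ((x.2 + 1 : ℕ) : ℝ)) =
        Real.exp (A * ((x.2 + 1) * Real.log x.1)) := by
      rw [Real.rpow_def_of_pos hp]
      congr 1
      push_cast
      ring
    rw [h4] at h2
    have h5 : ‖t x.1 (x.2 + 1) / ((x.2 : ℂ) + 1)‖ ≤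
        |D| * Real.exp (A * ((x.2 + 1) * Real.log x.1)) := by
      rw [norm_div]
      refine (div_le_self (norm_nonneg _) h3).trans (h2.trans ?_)
      exact mul_le_mul_of_nonneg_right (le_abs_self D) (Real.exp_pos _).le
    calc _ ≤ |D| * Real.exp (A * ((x.2 + 1) * Real.log x.1)) *
          Real.exp (-(σ * ((x.2 + 1) * Real.log x.1))) :=
          mul_le_mul_of_nonneg_right h5 (Real.exp_pos _).le
      _ = |D| * Real.exp (-((σ - A) * ((x.2 + 1) * Real.log x.1))) := by
          rw [mul_assoc, ← Real.exp_add]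
          congr 2
          ring
  · simp

/-- absolute convergence -/
theorem rterm_summable (hP : S_PRIMES) (hA : S_ABS) {t : ℕ → ℕ → ℂ} {A D : ℝ}
    (ht : ∀ p j : ℕ, p.Prime → 1 ≤ j → ‖t p j‖ ≤ D * (p : ℝ) ^ (A * j)) (s c : ℝ) {X : ℝ}
    (hX : 1 < X) : Summable fun x => ‖rterm t s c X x‖ := by
  have h1 := hA lq (fun x => bq t x * exp (-(s * lq x))) (A + 2 - s) lq_nonneg (by
    refine (bq_sum hP ht (σ := A + 2) (by linarith)).congr fun x => ?_
    rw [norm_mul, Complex.norm_exp, mul_assoc, ← Real.exp_add]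
    congr 2
    simp
    ring) c (Real.log X) (Real.log_pos hX)
  refine h1.congr fun x => ?_
  rw [rterm_eq]

/-- the value of a function with the law, in exponential form -/
theorem exp_form {S : ℝ → ℂ} {m : ℤ} {Λ r₀ : ℂ} {C T₀ : ℝ}
    (hT₀ : 1 ≤ T₀)
    (h : ∀ T ≥ T₀, ‖S T - (-(m * Real.log T) + m * Λ + r₀)‖ ≤ C / T) :
    (fun T : ℝ => exp (S T) * (exp (-Λ) * (T : ℂ)) ^ m - exp r₀) =O[atTop] (fun T : ℝ => 1 / T) := by
  have h1 : (fun T : ℝ => (S T + m * Real.log T - m * Λ) - r₀) =O[atTop] (fun T : ℝ => 1 / T) := by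
    refine IsBigO.of_bound C ?_
    filter_upwards [eventually_ge_atTop T₀] with T hT
    have hT0 : 0 < T := by linarith
    have e : S T + m * Real.log T - m * Λ - r₀ = S T - (-(m * Real.log T) + m * Λ + r₀) := by ring
    rw [e, Real.norm_eq_abs, abs_of_pos (by positivity), mul_one_div]
    exact h T hT
  have h0 : Tendsto (fun T : ℝ => (S T + m * Real.log T - m * Λ) - r₀) atTop (𝓝 0) :=
    h1.trans_tendsto (by simpa using tendsto_inv_atTop_zero (𝕜 := ℝ))
  have h2 : (fun T : ℝ => exp r₀ * (exp ((S T + m * Real.log T - m * Λ) - r₀) - 1)) =O[atTop]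
      (fun T : ℝ => 1 / T) := by
    refine IsBigO.const_mul_left ?_ _
    have h3 : (fun z : ℂ => exp z - 1) =O[𝓝 0] (fun z : ℂ => z) := by
      have := (Complex.hasDerivAt_exp 0).isBigO_sub
      simpa using this
    exact (h3.comp_tendsto h0).trans h1
  refine h2.congr' ?_ EventuallyEq.rfl
  filter_upwards [eventually_gt_atTop 0] with T hT
  have hTc : (T : ℂ) ≠ 0 := by exact_mod_cast hT.ne'
  have e1 : (exp (-Λ) * (T : ℂ)) ^ m = exp (m * Real.log T - m * Λ) := by
    have : exp (-Λ) * (T : ℂ) = exp (Real.log T - Λ) := by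
      rw [Complex.exp_sub, ← Complex.ofReal_exp, Real.exp_log hT, Complex.exp_neg]
      ring
    rw [this, ← Complex.exp_int_mul]
    congr 1
    ring
  rw [e1, ← Complex.exp_add, mul_sub, mul_one, ← Complex.exp_add]
  congr 2
  ring

end Pool.Agent.W187.CV
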