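import Pool.Agent.W187.CV.Value
import Pool.Agent.W187.CV.All

/-! Project CV: zeta functions of schemes of finite type over `ℤ`. -/

set_option autoImplicit false

namespace Pool.Agent.W187.CV

open Complex MeasureTheory Filter Topology Set Asymptotics
open Pool.Agent.W189.ML Pool.Agent.W187.UR Pool.Agent.W187.S2

/-- an affine scheme of finite type over `ℤ`, given by equations in `n` variables -/
structure Piece where
  /-- the number of variables -/
  n : ℕ
  /-- the equations -/
  eqs : List (MvPolynomial (Fin n) ℤ)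

/-- the number of points over the field with `p^j` elements -/
noncomputable def Piece.count (V : Piece) (p j : ℕ) : ℕ :=
  if h : p.Prime then
    haveI : Fact p.Prime := ⟨h⟩
    Nat.card {x : Fin V.n → GaloisField p j // ∀ g ∈ V.eqs, MvPolynomial.aeval x g = 0}
  else 0

/-- the number of points of a disjoint union of pieces -/
noncomputable def points (V : List Piece) (p j : ℕ) : ℕ := (V.map fun P => P.count p j).sum

theorem count_le (V : Piece) {p j : ℕ} (hp : p.Prime) (hj : 1 ≤ j) : V.count p j ≤ p ^ (j * V.n) := by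
  unfold Piece.count
  rw [dif_pos hp]
  have : Fact p.Prime := ⟨hp⟩
  have hfin : Finite (GaloisField p j) := by
    apply Nat.finite_of_card_ne_zero
    rw [GaloisField.card p j (by omega)]
    exact pow_ne_zero _ hp.ne_zero
  have h1 := Nat.card_le_card_of_injective
    (fun x : {x : Fin V.n → GaloisField p j // ∀ g ∈ V.eqs, MvPolynomial.aeval x g = 0} => x.1)
    Subtype.val_injective
  refine h1.trans (le_of_eq ?_)
  rw [Nat.card_fun, GaloisField.card p j (by omega)]
  simp [pow_mul]

/-- the polynomial bound -/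
theorem points_le (V : List Piece) : ∃ a : ℕ, ∀ p j : ℕ, p.Prime → 1 ≤ j →
    (points V p j : ℝ) ≤ V.length * (p : ℝ) ^ ((a : ℝ) * j) := by
  induction V with
  | nil => exact ⟨0, fun p j _ _ => by simp [points]⟩
  | cons P V ih =>
    obtain ⟨a, ha⟩ := ih
    refine ⟨a + P.n, fun p j hp hj => ?_⟩
    have hp1 : (1 : ℝ) ≤ p := by exact_mod_cast hp.one_le
    have h1 := ha p j hp hj
    have h2 := count_le P hp hj
    have h3 : (P.count p j : ℝ) ≤ (p : ℝ) ^ ((P.n : ℝ) * j) := by
      have : (P.count p j : ℝ) ≤ ((p ^ (j * P.n) : ℕ) : ℝ) := by exact_mod_cast h2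
      refine this.trans (le_of_eq ?_)
      push_cast
      rw [← Real.rpow_natCast]
      congr 1
      push_cast
      ring
    have e1 : (p : ℝ) ^ ((a : ℝ) * j) ≤ (p : ℝ) ^ (((a + P.n : ℕ) : ℝ) * j) := by
      refine Real.rpow_le_rpow_of_exponent_le hp1 ?_
      push_cast
      nlinarith [Nat.cast_nonneg (α := ℝ) P.n, Nat.cast_nonneg (α := ℝ) j]
    have e2 : (p : ℝ) ^ ((P.n : ℝ) * j) ≤ (p : ℝ) ^ (((a + P.n : ℕ) : ℝ) * j) := by
      refine Real.rpow_le_rpow_of_exponent_le hp1 ?_
      push_cast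
      nlinarith [Nat.cast_nonneg (α := ℝ) a, Nat.cast_nonneg (α := ℝ) j]
    have e3 : (points (P :: V) p j : ℝ) = P.count p j + points V p j := by
      simp [points]
    rw [e3, List.length_cons]
    push_cast at e1 e2 ⊢
    have e4 : (0 : ℝ) ≤ V.length := Nat.cast_nonneg _
    have e5 := mul_le_mul_of_nonneg_left e1 e4
    linarith

/-- the law in logarithmic form -/
theorem law_log {t : ℕ → ℕ → ℂ} {A D : ℝ}
    (ht : ∀ p j : ℕ, p.Prime → 1 ≤ j → ‖t p j‖ ≤ D * (p : ℝ) ^ (A * j)) {F : ℂ → ℂ}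
    (hF : ∀ s : ℂ, A + 1 < s.re → F s = exp (logL t s)) {s₀ : ℝ}
    (hm : ∀ x : ℝ, s₀ ≤ x → MeromorphicAt F x) :
    ∃ r : ℤ, meromorphicOrderAt F s₀ = r ∧ ∀ c : ℝ, Real.pi / 2 < c →
      ∃ κ : ℂ, exp (κ - r * Lam c) = meromorphicTrailingCoeffAt F s₀ ∧
        (fun X : ℝ => rsum t s₀ c X + r * Real.log (Real.log X) - κ) =O[atTop]
          (fun X : ℝ => 1 / Real.log X) := by
  obtain ⟨m, h1, h2, r₀, h3, h4⟩ := point_all lq (bq t) (A + 1) s₀ lq_nonneg
    (fun σ hσ => bq_sum Pool.Agent.W83.CV.primes ht hσ) F hm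
    (fun s hs => by rw [hF s hs, logL_eq])
  refine ⟨m, h1, fun c hc => ⟨m * Lam c + r₀, by rw [← h3]; congr 1; ring, ?_⟩⟩
  obtain ⟨C, T₀, hC, hT₀, h5⟩ := h4 c hc
  have h6 : (fun T : ℝ => rsum t s₀ c (Real.exp T) + m * Real.log T - (m * Lam c + r₀)) =O[atTop]
      (fun T : ℝ => 1 / T) := by
    refine IsBigO.of_bound C ?_
    filter_upwards [eventually_ge_atTop T₀] with T hT
    have hT0 : 0 < T := by linarith
    have h7 : rsum t s₀ c (Real.exp T) =
        ∑' i, bq t i * exp (-(s₀ * lq i)) * kk c (lq i / T) := by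
      unfold rsum
      refine tsum_congr fun x => ?_
      rw [rterm_eq, Real.log_exp]
    rw [Real.norm_eq_abs, abs_of_pos (by positivity), mul_one_div]
    have h8 := h5 T hT
    rw [h7]
    refine le_trans (le_of_eq ?_) h8
    congr 1
    ring
  refine (to_log h6).congr' ?_ EventuallyEq.rfl
  filter_upwards [eventually_gt_atTop 0] with X hX
  simp only [Real.exp_log hX]

end Pool.Agent.W187.CV
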