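import Pool.Agent.W187.CV.Motive

/-! Project CV: values at points of holomorphy. -/

set_option autoImplicit false

namespace Pool.Agent.W187.CV

open Complex MeasureTheory Filter Topology Set Asymptotics
open Pool.Agent.W189.ML Pool.Agent.W187.UR Pool.Agent.W187.S2

/-- from the leading coefficient to the value -/
theorem value_form {G : ℂ → ℂ} {s₀ : ℝ} (hG : AnalyticAt ℂ G s₀) {m : ℤ}
    (hm : meromorphicOrderAt G s₀ = m) {S : ℝ → ℂ} {Λ : ℂ}
    (h : (fun T : ℝ => exp (S T) * (exp (-Λ) * (T : ℂ)) ^ m - meromorphicTrailingCoeffAt G s₀) =O[atTop]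
      (fun T : ℝ => 1 / T)) :
    (fun T : ℝ => exp (S T) - G s₀) =O[atTop] (fun T : ℝ => 1 / T) := by
  have hm0 : 0 ≤ m := by
    have := hG.meromorphicOrderAt_nonneg
    rw [hm] at this
    exact_mod_cast this
  rcases hm0.eq_or_lt with h0 | h0
  · subst h0
    have hne : G s₀ ≠ 0 := by
      intro h1
      have h2 := hG.meromorphicOrderAt_eq
      rw [hm] at h2
      have h3 : analyticOrderAt G s₀ ≠ 0 := by
        rw [hG.analyticOrderAt_ne_zero]
        exact h1
      cases h4 : analyticOrderAt G s₀ with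
      | top => rw [h4] at h2; simp at h2
      | coe n =>
        rw [h4] at h2 h3
        have h5 : (n : ℤ) = 0 := by
          have : ((0 : ℤ) : WithTop ℤ) = ((n : ℤ) : WithTop ℤ) := by simpa using h2
          exact_mod_cast this.symm
        apply h3
        have : n = 0 := by exact_mod_cast h5
        rw [this]
        rfl
    rw [hG.meromorphicTrailingCoeffAt_of_ne_zero hne] at h
    simpa using h
  · have hz : G s₀ = 0 := by
      by_contra hne
      have h2 := hG.meromorphicOrderAt_eq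
      rw [hm, hG.analyticOrderAt_eq_zero.2 hne] at h2
      have : (m : WithTop ℤ) = ((0 : ℤ) : WithTop ℤ) := by simpa using h2
      have : m = 0 := by exact_mod_cast this
      omega
    rw [hz]
    simp only [sub_zero]
    -- bounded
    have h1 : (fun T : ℝ => exp (S T) * (exp (-Λ) * (T : ℂ)) ^ m) =O[atTop] (fun _ : ℝ => (1 : ℝ)) := by
      have h2 : (fun T : ℝ => exp (S T) * (exp (-Λ) * (T : ℂ)) ^ m - meromorphicTrailingCoeffAt G s₀)
          =O[atTop] (fun _ : ℝ => (1 : ℝ)) := by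
        refine h.trans ?_
        refine IsBigO.of_bound 1 ?_
        filter_upwards [eventually_ge_atTop 1] with T hT
        rw [Real.norm_eq_abs, abs_of_pos (by positivity), one_mul, norm_one]
        exact (div_le_one (by linarith)).2 hT
      have h3 : (fun _ : ℝ => meromorphicTrailingCoeffAt G s₀) =O[atTop] (fun _ : ℝ => (1 : ℝ)) :=
        isBigO_const_const _ one_ne_zero _
      have := h2.add h3
      simpa using this
    have h4 : (fun T : ℝ => ((exp (-Λ) * (T : ℂ)) ^ m)⁻¹) =O[atTop] (fun T : ℝ => 1 / T) := by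
      refine IsBigO.of_bound ‖(exp (-Λ)) ^ m‖⁻¹ ?_
      filter_upwards [eventually_ge_atTop 1] with T hT
      have hT0 : 0 < T := by linarith
      rw [norm_inv, mul_zpow, norm_mul, mul_inv, Real.norm_eq_abs, abs_of_pos (by positivity)]
      refine mul_le_mul_of_nonneg_left ?_ (by positivity)
      rw [norm_zpow, Complex.norm_real, Real.norm_eq_abs, abs_of_pos hT0, one_div]
      refine inv_anti₀ hT0 ?_
      calc T = T ^ (1 : ℤ) := (zpow_one T).symm
        _ ≤ T ^ m := zpow_le_zpow_right₀ hT (by omega)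
    have h5 := h1.mul h4
    simp only [one_mul] at h5
    refine h5.congr' ?_ EventuallyEq.rfl
    filter_upwards [eventually_gt_atTop 0] with T hT
    have hTc : (T : ℂ) ≠ 0 := by exact_mod_cast hT.ne'
    have h6 : (exp (-Λ) * (T : ℂ)) ^ m ≠ 0 := zpow_ne_zero _ (mul_ne_zero (Complex.exp_ne_zero _) hTc)
    rw [mul_assoc, mul_inv_cancel₀ h6, mul_one]

/-- the law for L-functions over `ℚ` -/
theorem law_q (hPT : S_POINT) (hP : S_PRIMES) {t : ℕ → ℕ → ℂ} {A D : ℝ}
    (ht : ∀ p j : ℕ, p.Prime → 1 ≤ j → ‖t p j‖ ≤ D * (p : ℝ) ^ (A * j)) {F : ℂ → ℂ}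
    (hF : ∀ s : ℂ, A + 1 < s.re → F s = exp (logL t s)) {s₀ : ℝ}
    (hm : ∀ x : ℝ, s₀ ≤ x → MeromorphicAt F x) :
    ∃ r : ℤ, meromorphicOrderAt F s₀ = r ∧ meromorphicTrailingCoeffAt F s₀ ≠ 0 ∧
      ∀ c : ℝ, Real.pi / 2 < c →
        (fun T : ℝ => exp (rsum t s₀ c (Real.exp T)) * (exp (-Lam c) * (T : ℂ)) ^ r -
          meromorphicTrailingCoeffAt F s₀) =O[atTop] (fun T : ℝ => 1 / T) := by
  obtain ⟨m, h1, h2, r₀, h3, h4⟩ := hPT lq (bq t) (A + 1) s₀ lq_nonneg
    (fun σ hσ => bq_sum hP ht hσ) F hm (fun s hs => by rw [hF s hs, logL_eq])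
  refine ⟨m, h1, h2, fun c hc => ?_⟩
  obtain ⟨C, T₀, hC, hT₀, h5⟩ := h4 c hc
  rw [← h3]
  refine exp_form (C := C) hT₀ fun T hT => ?_
  have h6 : rsum t s₀ c (Real.exp T) =
      ∑' i, bq t i * exp (-(s₀ * lq i)) * kk c (lq i / T) := by
    unfold rsum
    refine tsum_congr fun x => ?_
    rw [rterm_eq, Real.log_exp]
  rw [h6]
  exact h5 T hT

/-- passage from `T` to `log X` -/
theorem to_log {f : ℝ → ℂ} (h : f =O[atTop] (fun T : ℝ => 1 / T)) :
    (fun X : ℝ => f (Real.log X)) =O[atTop] (fun X : ℝ => 1 / Real.log X) :=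
  h.comp_tendsto Real.tendsto_log_atTop

end Pool.Agent.W187.CV
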